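import Pool.Agent.W945.Rl.Bound

/-! # Coordinates of the points, asymptotic bounds -/

set_option linter.unusedSectionVars false

namespace Pool.Agent.W945.Rl
open Pool.Agent.W945.Rk

variable {k s n F w d L : ℕ} [hs1 : Fact (s = 1)] {ρ : ℕ → Fin n}

/-! ## The exponents for all choices -/

theorem gen_bounds (hk : 1 ≤ k) {Λ : ℕ} (hΛ1 : 1 ≤ Λ) : ∀ m, ∀ ch ∈ choices k s Λ m,
    ∀ U : Finset (Fin n), U.card = m → (∀ u ∈ U, ∃ p < L, ρ p = u) →
    (∀ u ∈ U, ((Finset.range L).filter fun p => ρ p = u).card ≤ k) →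
    (∀ u i, TT k s m ≤ i → gen k s L ρ Λ ch U u i = 0) ∧
    (∀ u i, gen k s L ρ Λ ch U u i < PP Λ (Nat.log (RR k s) m)) := by
  intro m
  induction m using Nat.strong_induction_on with
  | _ m ih =>
    intro ch hch U hU hread hr
    rw [choices] at hch
    split_ifs at hch with hSt
    · obtain ⟨⟨ch1, κ, ch2⟩, hx, rfl⟩ := Finset.mem_image.1 hch
      rw [Finset.mem_product, Finset.mem_product, Finset.mem_range] at hx
      obtain ⟨hch1, hκ, hch2⟩ := hx
      simp only at hch1 hκ hch2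
      have hm := hSt.1
      have hQ := QQ_pos (s := s) hk
      have hRQ := RR_le_QQ (s := s) hk
      have hsR := s_le_RR (s := s) hk
      set m' := m / RR k s with hm'
      have hm'1 : 1 ≤ m' := (Nat.one_le_div_iff RR_pos).2 (by omega)
      have hlog1 : 1 ≤ Nat.log (RR k s) m := Nat.log_pos (by omega) (by omega)
      have hlog2 : Nat.log (RR k s) m' = Nat.log (RR k s) m - 1 := Nat.log_div_base _ _
      have hQU : QQ k s ≤ U.card := by rw [hU]; exact hm
      have H1 := fun c => ih m' hSt.2.1 ch1 hch1 (part k s L ρ U c)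
        (by rw [part_card hk hQU hr, hU]) (fun u hu => hread u (part_subset c hu))
        (fun u hu => hr u (part_subset c hu))
      have H2 := ih (m - (s + 1) * m') hSt.2.2 ch2 hch2 (U \ parts k s L ρ U)
        (by rw [Finset.card_sdiff_of_subset parts_subset, parts_card hk hQU hr hread, hU])
        (fun u hu => hread u (Finset.mem_sdiff.1 hu).1)
        (fun u hu => hr u (Finset.mem_sdiff.1 hu).1)
      have hP0 : 0 < PP Λ (Nat.log (RR k s) m) := by
        have := PP_pos (Λ := Λ) (Nat.log (RR k s) m); omega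
      have hPm : PP Λ (Nat.log (RR k s) m') ≤ PP Λ (Nat.log (RR k s) m) :=
        PP_mono hΛ1 (by omega)
      have hTTm : TT k s m = TT k s m' + (s + 1) + TT k s (m - (s + 1) * m') := by
        rw [TT, dif_pos hSt]
      have hgen1 : ∀ u i, TT k s m' + (s + 1) ≤ i → gen1 k s L ρ Λ ch1 κ U u i = 0 := by
        intro u i hi
        by_cases hu : u ∈ parts k s L ρ U
        · rw [parts, Finset.mem_biUnion] at hu
          obtain ⟨c, _, hc⟩ := hu
          have hc2 := c.2
          rw [gen1_of_mem hread hc, hU, ← hm', Finsupp.add_apply,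
            (H1 c).1 u i (by omega), Finsupp.single_apply, if_neg (by omega), add_zero]
        · rw [gen1_of_notMem hu, Finsupp.zero_apply]
      constructor
      · intro u i hi
        rw [hTTm] at hi
        rw [gen_node, hU, ← hm', Finsupp.add_apply, mapDomain_add_apply, hgen1 u i (by omega),
          if_pos (by omega), H2.1 u _ (by omega), add_zero]
      · intro u i
        rw [gen_node, hU, ← hm', Finsupp.add_apply, mapDomain_add_apply]
        split_ifs with hi
        · rw [hgen1 u i hi, zero_add]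
          exact lt_of_lt_of_le (H2.2 u _)
            (PP_mono hΛ1 (Nat.log_mono_right (Nat.sub_le _ _)))
        · rw [add_zero]
          by_cases hu : u ∈ parts k s L ρ U
          · rw [parts, Finset.mem_biUnion] at hu
            obtain ⟨c, _, hc⟩ := hu
            rw [gen1_of_mem hread hc, hU, ← hm', Finsupp.add_apply, Finsupp.single_apply]
            split_ifs with hci
            · rw [(H1 c).1 u i (by omega), zero_add]
              exact Nat.mod_lt _ hP0
            · rw [add_zero]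
              exact lt_of_lt_of_le ((H1 c).2 u i) hPm
          · rw [gen1_of_notMem hu, Finsupp.zero_apply]
            exact hP0
    · rw [Finset.mem_singleton] at hch
      subst hch
      constructor
      · intro u i hi
        rw [TT, dif_neg hSt] at hi
        rw [gen]
        split_ifs with hu
        · rw [Finsupp.single_apply, if_neg]
          have := rank_lt hu
          rw [hU] at this
          omega
        · rfl
      · intro u i
        have h2 := PP_pos (Λ := Λ) (Nat.log (RR k s) m)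
        rw [gen]
        split_ifs with hu
        · rw [Finsupp.single_apply]
          split_ifs <;> omega
        · rw [Finsupp.zero_apply]; omega

theorem sum_expo [NeZero w] (hk : 1 ≤ k) (hF : 0 < F) (hn : 0 < n) {ch : Ch}
    (hch : ch ∈ choices k s (Lam0 k s F w d L n) (light k L ρ).card) (u : Fin n) :
    ∑ i ∈ Finset.range (T2 k s L ρ), expo k s F w d L ρ ch u i ≤
      T1 k s L ρ * XX k s F w d L n + 1 := by
  have hpos : ∀ u ∈ light k L ρ, ∃ p < L, ρ p = u := by
    intro u hu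
    have h1 := (mem_light.1 hu).1
    obtain ⟨p, hp⟩ := Finset.card_pos.1 h1
    simp only [Finset.mem_filter, Finset.mem_range] at hp
    exact ⟨p, hp⟩
  obtain ⟨H1, H2⟩ := gen_bounds hk (one_le_Lam0 (k := k) (s := s) (d := d) (L := L) hF hn) _ ch hch
    (light k L ρ) rfl hpos (fun u hu => (mem_light.1 hu).2)
  have h3 : ∑ i ∈ Finset.range (T2 k s L ρ),
      gen k s L ρ (Lam0 k s F w d L n) ch (light k L ρ) u i ≤ T1 k s L ρ * XX k s F w d L n := by
    rw [T2, Finset.sum_range_add]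
    have h4 : ∑ i ∈ Finset.range (heavy k L ρ).card,
        gen k s L ρ (Lam0 k s F w d L n) ch (light k L ρ) u (T1 k s L ρ + i) = 0 :=
      Finset.sum_eq_zero fun i _ => H1 u _ (Nat.le_add_right _ _)
    rw [h4, add_zero]
    refine (Finset.sum_le_card_nsmul _ _ (XX k s F w d L n) fun i _ => ?_).trans ?_
    · exact (H2 u i).le.trans (PP_mono (one_le_Lam0 hF hn) (Nat.log_mono_right light_card_le))
    · rw [Finset.card_range, smul_eq_mul]
  have h5 : ∑ i ∈ Finset.range (T2 k s L ρ), (if u ∈ heavy k L ρ then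
      Finsupp.single (((heavy k L ρ).filter (· < u)).card + T1 k s L ρ) 1 else 0 : ℕ →₀ ℕ) i
        ≤ 1 := by
    split_ifs
    · simp only [Finsupp.single_apply, Finset.sum_ite_eq]
      split_ifs <;> omega
    · simp
  simp only [expo, Finsupp.add_apply, Finset.sum_add_distrib]
  omega

theorem abs_le_of_mem [NeZero w] (hk : 1 ≤ k) (hF : 0 < F) (hn : 0 < n) {x : Fin n → ℤ}
    (hx : x ∈ points k s F w d L ρ) (u : Fin n) :
    (x u).natAbs ≤ 2 ^ (YY n F w d L ^ (CC * (1 + Nat.log 2 n) ^ 2)) := by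
  have hs : s = 1 := hs1.out
  subst hs
  obtain ⟨ch, hch, hx⟩ := Finset.mem_biUnion.1 hx
  obtain ⟨t, ht, rfl⟩ := Finset.mem_image.1 hx
  rw [Fintype.mem_piFinset] at ht
  set Y := YY n F w d L with hY
  set X := XX k 1 F w d L n with hX
  have hY2 : 2 ≤ Y := YY_ge_two
  have hX1 : 1 ≤ X := by
    have := PP_pos (Λ := Lam0 k 1 F w d L n) (Nat.log (RR k 1) n)
    rw [hX, XX]; omega
  have hYX : 1 ≤ Y * X := Nat.one_le_iff_ne_zero.2 (by positivity)
  have h1 : (∏ i : Fin (T2 k 1 L ρ), (t i : ℤ) ^ (expo k 1 F w d L ρ ch u i)).natAbs =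
      ∏ i : Fin (T2 k 1 L ρ), (t i) ^ (expo k 1 F w d L ρ ch u i) := by
    have : (∏ i : Fin (T2 k 1 L ρ), (t i : ℤ) ^ (expo k 1 F w d L ρ ch u i)) =
      ((∏ i : Fin (T2 k 1 L ρ), (t i) ^ (expo k 1 F w d L ρ ch u i) : ℕ) : ℤ) := by push_cast; rfl
    rw [this, Int.natAbs_natCast]
  have h2 : ∏ i : Fin (T2 k 1 L ρ), (t i) ^ (expo k 1 F w d L ρ ch u i) ≤
      (Y * X) ^ (T1 k 1 L ρ * X + 1) := by
    calc ∏ i : Fin (T2 k 1 L ρ), (t i) ^ (expo k 1 F w d L ρ ch u i)
        ≤ ∏ i : Fin (T2 k 1 L ρ), (Y * X) ^ (expo k 1 F w d L ρ ch u i) := by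
          refine Finset.prod_le_prod' fun i _ => Nat.pow_le_pow_left ?_ _
          have h3 := Finset.mem_range.1 (ht i)
          have h4 : gr k 1 F w d L ρ i ≤ F * (d * L) * X + 1 := by
            rw [gr]; split_ifs
            · rfl
            · exact Nat.add_le_add_right (Nat.le_mul_of_pos_right _ hX1) _
          have h5 : F * (d * L) * X ≤ Y * X := Nat.mul_le_mul_right _ ((Nat.le_succ _).trans FdL_lt_YY)
          omega
      _ = (Y * X) ^ ∑ i ∈ Finset.range (T2 k 1 L ρ), expo k 1 F w d L ρ ch u i := by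
          rw [Finset.prod_pow_eq_pow_sum,
            Fin.sum_univ_eq_sum_range (fun i => expo k 1 F w d L ρ ch u i)]
      _ ≤ (Y * X) ^ (T1 k 1 L ρ * X + 1) := Nat.pow_le_pow_right hYX (sum_expo hk hF hn hch u)
  have hXb : X ≤ Y ^ bb k 1 n := XX_le hF hn
  have h3 : Y * X ≤ 2 ^ (Y * (bb k 1 n + 1)) := by
    calc Y * X ≤ Y * Y ^ bb k 1 n := Nat.mul_le_mul_left _ hXb
      _ = Y ^ (bb k 1 n + 1) := by ring
      _ ≤ (2 ^ Y) ^ (bb k 1 n + 1) := Nat.pow_le_pow_left Nat.lt_two_pow_self.le _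
      _ = 2 ^ (Y * (bb k 1 n + 1)) := by rw [← pow_mul]
  have hT1 : T1 k 1 L ρ ≤ Y ^ 3 := by
    have h4 : T1 k 1 L ρ ≤ (1 + 2) * n := by
      unfold T1
      rcases Nat.eq_zero_or_pos (light k L ρ).card with h | h
      · rw [h, TT_zero hk]; omega
      · have := TT_le (s := 1) hk _ h
        have h5 := Nat.mul_le_mul_left (1 + 2) (light_card_le (k := k) (L := L) (ρ := ρ))
        omega
    calc T1 k 1 L ρ ≤ 3 * n := h4
      _ ≤ Y ^ 2 * Y := Nat.mul_le_mul (by nlinarith) n_le_YY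
      _ = Y ^ 3 := by ring
  have hexp : Y * (bb k 1 n + 1) * (T1 k 1 L ρ * X + 1) ≤ Y ^ (6 + 2 * bb k 1 n) := by
    have h6 : T1 k 1 L ρ * X + 1 ≤ Y ^ (4 + bb k 1 n) := by
      calc T1 k 1 L ρ * X + 1 ≤ Y ^ 3 * Y ^ bb k 1 n + Y ^ 3 * Y ^ bb k 1 n :=
            Nat.add_le_add (Nat.mul_le_mul hT1 hXb) (Nat.one_le_iff_ne_zero.2 (by positivity))
        _ = 2 * (Y ^ 3 * Y ^ bb k 1 n) := by ring
        _ ≤ Y * (Y ^ 3 * Y ^ bb k 1 n) := Nat.mul_le_mul_right _ hY2
        _ = Y ^ (4 + bb k 1 n) := by ring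
    calc Y * (bb k 1 n + 1) * (T1 k 1 L ρ * X + 1)
        ≤ Y * Y ^ (bb k 1 n + 1) * Y ^ (4 + bb k 1 n) :=
          Nat.mul_le_mul (Nat.mul_le_mul_left _ (lt_pow_of hY2).le) h6
      _ = Y ^ (6 + 2 * bb k 1 n) := by ring
  have hfin : 6 + 2 * bb k 1 n ≤ CC * (1 + Nat.log 2 n) ^ 2 := by
    have h7 := bb_le (k := k) (n := n) hk
    set q := (1 + Nat.log 2 n) ^ 2 with hq
    have hq1 : 1 ≤ q := Nat.one_le_pow _ _ (by omega)
    unfold CC
    omega
  rw [h1]
  calc ∏ i : Fin (T2 k 1 L ρ), (t i) ^ (expo k 1 F w d L ρ ch u i)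
      ≤ (Y * X) ^ (T1 k 1 L ρ * X + 1) := h2
    _ ≤ (2 ^ (Y * (bb k 1 n + 1))) ^ (T1 k 1 L ρ * X + 1) := Nat.pow_le_pow_left h3 _
    _ = 2 ^ (Y * (bb k 1 n + 1) * (T1 k 1 L ρ * X + 1)) := by rw [← pow_mul]
    _ ≤ 2 ^ (Y ^ (CC * (1 + Nat.log 2 n) ^ 2)) :=
      Nat.pow_le_pow_right (by norm_num) (hexp.trans (Nat.pow_le_pow_right (by omega) hfin))

/-! ## The heavy variables -/

/-- There are at most `L / (k + 1)` heavy variables. -/
theorem heavy_count : (k + 1) * (heavy k L ρ).card ≤ L := by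
  have h1 : ∑ u ∈ heavy k L ρ, (k + 1) ≤ ∑ u ∈ heavy k L ρ, reads L ρ u := by
    refine Finset.sum_le_sum fun u hu => ?_
    have := (Finset.mem_filter.1 hu).2
    omega
  have h2 : ∑ u ∈ heavy k L ρ, reads L ρ u ≤ ∑ u : Fin n, reads L ρ u :=
    Finset.sum_le_sum_of_subset (Finset.subset_univ _)
  have h3 : ∑ u : Fin n, reads L ρ u = L := by
    unfold reads
    rw [← Finset.card_eq_sum_card_fiberwise (f := ρ) (s := Finset.range L) (t := Finset.univ)
      (fun _ _ => Finset.mem_coe.2 (Finset.mem_univ _)), Finset.card_range]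
  rw [Finset.sum_const, smul_eq_mul] at h1
  calc (k + 1) * (heavy k L ρ).card = (heavy k L ρ).card * (k + 1) := Nat.mul_comm _ _
    _ ≤ L := by omega

end Pool.Agent.W945.Rl
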