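import Pool.Agent.W945.Rl.Bound2

/-! # Long programs -/

namespace Pool.Agent.W945.Rl
open Pool.Agent.W945.Rk

/-- The number of reads used for programs of length `c n log n / log log n`. -/
noncomputable def kk (n : ℕ) : ℕ := ⌊Real.log n / (8 * Real.log (Real.log n))⌋₊

/-- The threshold for `n`. -/
noncomputable def NN (ε : ℝ) : ℕ := ⌈Real.exp (max 9216 (1440 / ε))⌉₊

theorem log_small {x : ℝ} (hx : 9216 ≤ x) : 48 * Real.log x ≤ x := by
  have h0 : 0 ≤ x := by linarith
  have h1 : Real.log x = 2 * Real.log (Real.sqrt x) := by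
    rw [Real.log_sqrt h0]; ring
  have h2 : 96 ≤ Real.sqrt x := by
    rw [show (96 : ℝ) = Real.sqrt 9216 by
      rw [show (9216 : ℝ) = 96 ^ 2 by norm_num, Real.sqrt_sq (by norm_num)]]
    exact Real.sqrt_le_sqrt hx
  have h3 : Real.log (Real.sqrt x) ≤ Real.sqrt x := by
    have := Real.log_le_sub_one_of_pos (x := Real.sqrt x) (by linarith)
    linarith
  have h4 : Real.sqrt x * Real.sqrt x = x := Real.mul_self_sqrt h0
  rw [h1]
  nlinarith

theorem long {ε : ℝ} (hε : 0 < ε) {n F w d L : ℕ} {ρ : ℕ → Fin n} (hn : NN ε ≤ n) (hF : 1 ≤ F)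
    (hw : 1 ≤ w) (hL : (L : ℝ) ≤ ε / 16 * n * Real.log n / Real.log (Real.log n)) :
    1 ≤ kk n ∧ ((points (kk n) 1 F w d L ρ).card : ℝ) ≤ (YY n F w d L : ℝ) ^ (ε * n) := by
  set l : ℝ := Real.log n with hl
  set m : ℝ := Real.log l with hm
  have hn0 : Real.exp (max 9216 (1440 / ε)) ≤ n := (Nat.le_ceil _).trans (by exact_mod_cast hn)
  have hnp : (0 : ℝ) < n := lt_of_lt_of_le (Real.exp_pos _) hn0
  have hl0 : max 9216 (1440 / ε) ≤ l := by
    rw [hl, Real.le_log_iff_exp_le hnp]; exact hn0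
  have hl1 : 9216 ≤ l := (le_max_left _ _).trans hl0
  have hl2 : 1440 / ε ≤ l := (le_max_right _ _).trans hl0
  have hlp : 0 < l := by linarith
  have hm48 : 48 * m ≤ l := log_small hl1
  have hm1 : 1 ≤ m := by
    rw [hm, Real.le_log_iff_exp_le hlp]
    have := Real.exp_one_lt_d9
    linarith
  have hmp : 0 < m := by linarith
  have hq1 : (1 : ℝ) ≤ l / (8 * m) := by rw [le_div_iff₀ (by positivity)]; linarith
  have hk1 : 1 ≤ kk n := by
    rw [kk, Nat.one_le_floor_iff]; exact hq1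
  refine ⟨hk1, ?_⟩
  have hkl : (kk n : ℝ) ≤ l / (8 * m) := Nat.floor_le (by positivity)
  have hku : l / (8 * m) < (kk n : ℝ) + 1 := Nat.lt_floor_add_one _
  set k := kk n with hk
  have hn1 : 1 ≤ n := by
    have : (0 : ℝ) < n := hnp
    exact_mod_cast this
  refine (points_card hk1 hF hw hn1).trans ?_
  have hY : (1 : ℝ) ≤ YY n F w d L := by
    have := YY_ge_two (n := n) (F := F) (w := w) (d := d) (L := L)
    exact_mod_cast (by omega : 1 ≤ YY n F w d L)
  have hYp : (0 : ℝ) < YY n F w d L := by linarith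
  -- the heavy variables
  have hh : ((heavy k L ρ).card : ℝ) ≤ ε / 2 * n := by
    have h1 : ((k : ℝ) + 1) * (heavy k L ρ).card ≤ L := by
      exact_mod_cast heavy_count (k := k) (L := L) (ρ := ρ)
    have h2 : l / (8 * m) * (heavy k L ρ).card ≤ ((k : ℝ) + 1) * (heavy k L ρ).card :=
      mul_le_mul_of_nonneg_right hku.le (by positivity)
    have h3 : l / (8 * m) * (heavy k L ρ).card ≤ ε / 16 * n * l / m := h2.trans (h1.trans hL)
    rw [div_mul_eq_mul_div, div_le_div_iff₀ (by positivity) hmp] at h3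
    have h4 : (l * m) * (heavy k L ρ).card ≤ (l * m) * (ε / 2 * n) := by nlinarith
    exact le_of_mul_le_mul_left h4 (by positivity)
  -- the light variables
  have hlight : (CC : ℝ) * (n : ℝ) ^ (1 - 1 / (2 * (k : ℝ) + 4)) * (1 + Nat.log 2 n) ^ 2 ≤
      ε / 2 * n := by
    have h1 : 2 * (k : ℝ) + 4 ≤ l / (3 * m) := by
      have h2 : l / (3 * m) = 2 * (l / (8 * m)) + l / (12 * m) := by field_simp; norm_num
      have h3 : 4 ≤ l / (12 * m) := by
        rw [le_div_iff₀ (by positivity)]; linarith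
      linarith
    have h2 : (n : ℝ) ^ (1 - 1 / (2 * (k : ℝ) + 4)) ≤ n * l ^ (-(3 : ℝ)) := by
      rw [Real.rpow_sub hnp, Real.rpow_one, div_eq_mul_inv, ← Real.rpow_neg hnp.le]
      apply mul_le_mul_of_nonneg_left _ hnp.le
      rw [Real.rpow_def_of_pos hnp, Real.rpow_def_of_pos hlp]
      apply Real.exp_le_exp.2
      rw [← hl, ← hm]
      have h3 : 3 * m ≤ l * (1 / (2 * (k : ℝ) + 4)) := by
        rw [mul_one_div, le_div_iff₀ (by positivity)]
        rw [le_div_iff₀ (by positivity)] at h1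
        linarith
      linarith
    have h3 : 1 + (Nat.log 2 n : ℝ) ≤ 3 * l := by
      have h4 : (Nat.log 2 n : ℝ) ≤ Real.log n / Real.log 2 := by
        have := Real.natLog_le_logb n 2
        rw [Real.logb] at this
        exact_mod_cast this
      have h5 : Real.log n / Real.log 2 ≤ 2 * l := by
        rw [div_le_iff₀ (Real.log_pos (by norm_num)), ← hl]
        have := Real.log_two_gt_d9
        nlinarith
      linarith
    have h4 : (1 + (Nat.log 2 n : ℝ)) ^ 2 ≤ 9 * l ^ 2 := by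
      calc (1 + (Nat.log 2 n : ℝ)) ^ 2 ≤ (3 * l) ^ 2 := pow_le_pow_left₀ (by positivity) h3 2
        _ = 9 * l ^ 2 := by ring
    have h5 : l ^ (-(3 : ℝ)) * l ^ 2 = 1 / l := by
      rw [Real.rpow_neg hlp.le]
      have : l ^ (3 : ℝ) = l ^ 3 := by
        rw [← Real.rpow_natCast]; norm_num
      rw [this]; field_simp
    have h6 : 720 / l ≤ ε / 2 := by
      rw [div_le_iff₀ hε] at hl2
      rw [div_le_iff₀ hlp]
      linarith
    calc (CC : ℝ) * (n : ℝ) ^ (1 - 1 / (2 * (k : ℝ) + 4)) * (1 + Nat.log 2 n) ^ 2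
        ≤ CC * (n * l ^ (-(3 : ℝ))) * (9 * l ^ 2) := by
          apply mul_le_mul _ h4 (by positivity) (by positivity)
          exact mul_le_mul_of_nonneg_left h2 (by positivity)
      _ = 720 * n * (l ^ (-(3 : ℝ)) * l ^ 2) := by unfold CC; push_cast; ring
      _ = 720 / l * n := by rw [h5]; ring
      _ ≤ ε / 2 * n := mul_le_mul_of_nonneg_right h6 hnp.le
  have h1 : ((F : ℝ) * (d * L) + 1) ^ (heavy k L ρ).card ≤ (YY n F w d L : ℝ) ^ (ε / 2 * n) := by
    have h2 : ((F : ℝ) * (d * L) + 1) ≤ YY n F w d L := by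
      exact_mod_cast FdL_lt_YY (n := n) (F := F) (w := w) (d := d) (L := L)
    calc ((F : ℝ) * (d * L) + 1) ^ (heavy k L ρ).card ≤ (YY n F w d L : ℝ) ^ (heavy k L ρ).card :=
          pow_le_pow_left₀ (by positivity) h2 _
      _ = (YY n F w d L : ℝ) ^ ((heavy k L ρ).card : ℝ) := (Real.rpow_natCast _ _).symm
      _ ≤ _ := Real.rpow_le_rpow_of_exponent_le hY hh
  calc _ ≤ (YY n F w d L : ℝ) ^ (ε / 2 * n) * (YY n F w d L : ℝ) ^ (ε / 2 * n) :=
        mul_le_mul (Real.rpow_le_rpow_of_exponent_le hY hlight) h1 (by positivity) (by positivity)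
    _ = (YY n F w d L : ℝ) ^ (ε * n) := by
        rw [← Real.rpow_add hYp]; ring_nf

end Pool.Agent.W945.Rl
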