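import Pool.Agent.W945.Rl.Defs

/-! # Two classes by the product of their sizes -/

namespace Pool.Agent.W945.Rl

open Finset

theorem card_two {M : ℕ} (A B : Finset (Fin M)) (h : Disjoint A B) :
    (2 : ℝ) ^ M ≤ 2 ^ (A.card + B.card) * ∑ χ : Fin M → Fin 2,
      (if (∀ x ∈ A, χ x = 0) ∧ ∀ x ∈ B, χ x = 1 then (1 : ℝ) else 0) := by
  rw [Finset.sum_boole]
  have h1 : (Finset.univ.filter fun χ : Fin M → Fin 2 => (∀ x ∈ A, χ x = 0) ∧ ∀ x ∈ B, χ x = 1) =
      Fintype.piFinset (fun x => if x ∈ A then {0} else if x ∈ B then {1} else Finset.univ) := by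
    ext χ
    simp only [Finset.mem_filter, Finset.mem_univ, true_and, Fintype.mem_piFinset]
    constructor
    · intro h x
      split_ifs with hx hx'
      · rw [Finset.mem_singleton]; exact h.1 x hx
      · rw [Finset.mem_singleton]; exact h.2 x hx'
      · exact Finset.mem_univ _
    · intro h'
      constructor
      · intro x hx
        have := h' x
        rw [if_pos hx, Finset.mem_singleton] at this
        exact this
      · intro x hx
        have := h' x
        rw [if_neg (Finset.disjoint_right.1 h hx), if_pos hx, Finset.mem_singleton] at this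
        exact this
  rw [h1, Fintype.card_piFinset]
  have h2 : ∀ x : Fin M, (if x ∈ A then ({0} : Finset (Fin 2)) else if x ∈ B then {1}
      else Finset.univ).card = if x ∈ A ∪ B then 1 else 2 := by
    intro x
    by_cases hA : x ∈ A
    · simp [hA]
    · by_cases hB : x ∈ B
      · simp [hA, hB]
      · simp [hA, hB]
  simp_rw [h2]
  rw [Finset.prod_ite, Finset.prod_const_one, one_mul, Finset.prod_const]
  have h3 : (Finset.univ.filter fun x : Fin M => x ∉ A ∪ B).card + (A ∪ B).card = M := by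
    have h4 : (Finset.univ.filter fun x : Fin M => x ∉ A ∪ B) = (A ∪ B)ᶜ := by ext x; simp
    rw [h4, Finset.card_compl, Fintype.card_fin]
    have := Finset.card_le_univ (A ∪ B)
    rw [Fintype.card_fin] at this
    omega
  rw [Finset.card_union_of_disjoint h] at h3
  push_cast
  rw [← pow_add]
  exact pow_le_pow_right₀ (by norm_num) (by omega)

theorem product_classes {α : Type} [DecidableEq α] (U : Finset α) {M : ℕ}
    (A : α → Finset (Fin M)) {k ℓ : ℕ} (hk : ∀ u ∈ U, (A u).card ≤ k)
    (hl : ∀ x, (U.filter fun u => x ∈ A u).card ≤ ℓ) (h : 2 * (k * ℓ) ≤ U.card) :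
    ∃ χ : Fin M → Fin 2, ∀ c, U.card / (2 * 4 ^ k) ≤
      (U.filter fun u => ∀ x ∈ A u, χ x = c).card := by
  set m : ℝ := (U.card : ℝ) with hm
  have hm0 : 0 ≤ m := Nat.cast_nonneg _
  set X : Fin 2 → (Fin M → Fin 2) → ℝ := fun c χ =>
    ((U.filter fun u => ∀ x ∈ A u, χ x = c).card : ℝ) with hX
  -- pairs with common blocks
  have hbad : ∀ u ∈ U, ((U.filter fun v => ¬ Disjoint (A u) (A v)).card : ℝ) ≤ k * ℓ := by
    intro u hu
    have h1 : (U.filter fun v => ¬ Disjoint (A u) (A v)) ⊆
        (A u).biUnion fun x => U.filter fun v => x ∈ A v := by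
      intro v hv
      rw [Finset.mem_filter, Finset.not_disjoint_iff] at hv
      obtain ⟨hv, x, hx, hx'⟩ := hv
      rw [Finset.mem_biUnion]
      exact ⟨x, hx, Finset.mem_filter.2 ⟨hv, hx'⟩⟩
    have h2 : (U.filter fun v => ¬ Disjoint (A u) (A v)).card ≤ k * ℓ := by
      refine (Finset.card_le_card h1).trans (Finset.card_biUnion_le.trans ?_)
      refine (Finset.sum_le_card_nsmul _ _ ℓ fun x _ => hl x).trans ?_
      rw [smul_eq_mul]
      exact Nat.mul_le_mul_right _ (hk u hu)
    exact_mod_cast h2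
  have hgood : ∀ u ∈ U, m / 2 ≤ ((U.filter fun v => Disjoint (A u) (A v)).card : ℝ) := by
    intro u hu
    have h1 := hbad u hu
    have h2 := Finset.card_filter_add_card_filter_not (s := U) (fun v => Disjoint (A u) (A v))
    have h3 : ((U.filter fun v => Disjoint (A u) (A v)).card : ℝ) +
        ((U.filter fun v => ¬ Disjoint (A u) (A v)).card : ℝ) = m := by
      rw [hm]; exact_mod_cast h2
    have h4 : 2 * ((k : ℝ) * ℓ) ≤ m := by rw [hm]; exact_mod_cast h
    linarith
  -- the expectation of the product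
  have hE : (2 : ℝ) ^ M * (m * (m / 2)) ≤ 4 ^ k * ∑ χ, X 0 χ * X 1 χ := by
    have e1 : ∀ χ : Fin M → Fin 2, X 0 χ * X 1 χ = ∑ u ∈ U, ∑ v ∈ U,
        (if (∀ x ∈ A u, χ x = 0) ∧ ∀ x ∈ A v, χ x = 1 then (1 : ℝ) else 0) := by
      intro χ
      simp only [hX]
      rw [← Finset.sum_boole, ← Finset.sum_boole, Finset.sum_mul_sum]
      refine Finset.sum_congr rfl fun u _ => Finset.sum_congr rfl fun v _ => ?_
      by_cases h1 : ∀ x ∈ A u, χ x = 0 <;> by_cases h2 : ∀ x ∈ A v, χ x = 1
      · simp only [eq_true h1, eq_true h2, and_self, if_true, mul_one]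
      · simp only [eq_true h1, eq_false h2, and_false, if_true, if_false, mul_zero]
      · simp only [eq_false h1, eq_true h2, false_and, if_false, zero_mul]
      · simp only [eq_false h1, eq_false h2, false_and, if_false, zero_mul]
    simp_rw [e1]
    rw [Finset.sum_comm, Finset.mul_sum]
    have e2 : (2 : ℝ) ^ M * (m * (m / 2)) = ∑ _u ∈ U, (2 : ℝ) ^ M * (m / 2) := by
      rw [Finset.sum_const, nsmul_eq_mul, ← hm]; ring
    rw [e2]
    refine Finset.sum_le_sum fun u hu => ?_
    rw [Finset.sum_comm, Finset.mul_sum]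
    calc (2 : ℝ) ^ M * (m / 2)
        ≤ (2 : ℝ) ^ M * ((U.filter fun v => Disjoint (A u) (A v)).card : ℝ) :=
          mul_le_mul_of_nonneg_left (hgood u hu) (by positivity)
      _ = ∑ v ∈ U.filter (fun v => Disjoint (A u) (A v)), (2 : ℝ) ^ M := by
          rw [Finset.sum_const, nsmul_eq_mul]; ring
      _ ≤ ∑ v ∈ U.filter (fun v => Disjoint (A u) (A v)), 4 ^ k * ∑ χ : Fin M → Fin 2,
            (if (∀ x ∈ A u, χ x = 0) ∧ ∀ x ∈ A v, χ x = 1 then (1 : ℝ) else 0) := by
          refine Finset.sum_le_sum fun v hv => ?_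
          rw [Finset.mem_filter] at hv
          refine (card_two (A u) (A v) hv.2).trans ?_
          apply mul_le_mul_of_nonneg_right
          · have h4 : (4 : ℝ) ^ k = 2 ^ (k + k) := by
              rw [pow_add, ← mul_pow]; norm_num
            rw [h4]
            exact pow_le_pow_right₀ (by norm_num) (Nat.add_le_add (hk u hu) (hk v hv.1))
          · exact Finset.sum_nonneg fun χ _ => by split_ifs <;> norm_num
      _ ≤ ∑ v ∈ U, 4 ^ k * ∑ χ : Fin M → Fin 2,
            (if (∀ x ∈ A u, χ x = 0) ∧ ∀ x ∈ A v, χ x = 1 then (1 : ℝ) else 0) := by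
          refine Finset.sum_le_sum_of_subset_of_nonneg (Finset.filter_subset _ _) fun v _ _ => ?_
          exact mul_nonneg (by positivity)
            (Finset.sum_nonneg fun χ _ => by split_ifs <;> norm_num)
  -- a good colouring
  have hex : ∃ χ : Fin M → Fin 2, m * (m / 2) ≤ 4 ^ k * (X 0 χ * X 1 χ) := by
    by_contra hcon
    push Not at hcon
    have h1 : ∑ χ : Fin M → Fin 2, 4 ^ k * (X 0 χ * X 1 χ) <
        ∑ _χ : Fin M → Fin 2, m * (m / 2) :=
      Finset.sum_lt_sum_of_nonempty ⟨fun _ => 0, Finset.mem_univ _⟩ fun χ _ => hcon χ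
    rw [← Finset.mul_sum, Finset.sum_const, Finset.card_univ, Fintype.card_fun, Fintype.card_fin,
      Fintype.card_fin, nsmul_eq_mul] at h1
    push_cast at h1
    linarith
  obtain ⟨χ, hχ⟩ := hex
  refine ⟨χ, ?_⟩
  have hXm : ∀ c, X c χ ≤ m := by
    intro c
    simp only [hX, hm]
    exact_mod_cast Finset.card_filter_le _ _
  have hX0 : ∀ c, 0 ≤ X c χ := fun c => Nat.cast_nonneg _
  have hP : (0 : ℝ) < 4 ^ k := by positivity
  have key : ∀ c, m ≤ 2 * 4 ^ k * X c χ := by
    rcases hm0.eq_or_lt with h0 | h0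
    · intro c
      rw [← h0]
      have := hX0 c
      positivity
    · have h01 : m * (m / 2) ≤ m * (4 ^ k * X 0 χ) := by
        have h2 := mul_le_mul_of_nonneg_left (hXm 1) (hX0 0)
        have h3 := mul_le_mul_of_nonneg_left h2 hP.le
        linarith
      have h11 : m * (m / 2) ≤ m * (4 ^ k * X 1 χ) := by
        have h2 := mul_le_mul_of_nonneg_right (hXm 0) (hX0 1)
        have h3 := mul_le_mul_of_nonneg_left h2 hP.le
        linarith
      have h02 := le_of_mul_le_mul_left h01 h0
      have h12 := le_of_mul_le_mul_left h11 h0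
      intro c
      fin_cases c
      · show m ≤ 2 * 4 ^ k * X 0 χ
        linarith
      · show m ≤ 2 * 4 ^ k * X 1 χ
        linarith
  intro c
  have h1 := key c
  have h2 : U.card ≤ 2 * 4 ^ k * (U.filter fun u => ∀ x ∈ A u, χ x = c).card := by
    have : (U.card : ℝ) ≤ ((2 * 4 ^ k * (U.filter fun u => ∀ x ∈ A u, χ x = c).card : ℕ) : ℝ) := by
      push_cast; exact h1
    exact_mod_cast this
  exact Nat.div_le_of_le_mul h2

end Pool.Agent.W945.Rl
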