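import Mathlib

/-! # The explicit substitutions: definitions

Variant of `Pool.Agent.W945.Rk.Defs` with few blocks (`4 k ^ 2` of them), for all `k` up to
`c log n / log log n`; it is used with two colours (`s = 1`).

`k` bounds the number of reads of a variable, `s + 1` is the number of colours, `ρ p` is the
variable read at the position `p < L`. -/

namespace Pool.Agent.W945.Rl

/-- The sizes of the classes are `m / RR`. -/
def RR (k s : ℕ) : ℕ := 2 * (s + 1) ^ (2 * k)

/-- Sets with less than `QQ` variables are treated directly. -/
def QQ (k s : ℕ) : ℕ := 2 * RR k s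

/-- The blocks of a set `U` consist of `|U| / DD` reads. -/
def DD (k : ℕ) : ℕ := 2 * k

/-- Bound for the numbers of the blocks. -/
def BB (k : ℕ) : ℕ := 2 * k * DD k

section
variable (k s : ℕ) {n : ℕ} (L : ℕ) (ρ : ℕ → Fin n)

/-- The number of the block of the position `p`: the reads of the variables in `U` are divided into
blocks of `|U| / DD` consecutive reads. -/
def lab (U : Finset (Fin n)) (p : ℕ) : ℕ :=
  ((Finset.range (min p L)).filter fun q => ρ q ∈ U).card / (U.card / DD k)

/-- The variables all of whose reads are in blocks of the colour `c`. -/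
def cls (U : Finset (Fin n)) (χ : Fin (BB k + 1) → Fin (s + 1)) (c : Fin (s + 1)) :
    Finset (Fin n) :=
  U.filter fun u => ∀ p ∈ Finset.range L, ρ p = u →
    χ (Fin.ofNat (BB k + 1) (lab k L ρ U p)) = c

/-- The first colouring of the blocks for which all classes have at least `|U| / RR` elements. -/
def colr (U : Finset (Fin n)) : Fin (BB k + 1) → Fin (s + 1) :=
  (((List.finRange ((s + 1) ^ (BB k + 1))).map fun a => finFunctionFinEquiv.symm a).find?
    fun χ => decide (∀ c, U.card / RR k s ≤ (cls k s L ρ U χ c).card)).getD fun _ => 0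

/-- The class of the colour `c`: the first `|U| / RR` variables of the colour `c`. -/
def part (U : Finset (Fin n)) (c : Fin (s + 1)) : Finset (Fin n) :=
  (((cls k s L ρ U (colr k s L ρ U) c).sort (· ≤ ·)).take (U.card / RR k s)).toFinset

/-- The union of the classes. -/
def parts (U : Finset (Fin n)) : Finset (Fin n) := Finset.univ.biUnion (part k s L ρ U)

/-- The condition for a step of the recursion. -/
def Stp (m : ℕ) : Prop :=
  QQ k s ≤ m ∧ m / RR k s < m ∧ m - (s + 1) * (m / RR k s) < m

instance (m : ℕ) : Decidable (Stp k s m) := by unfold Stp; infer_instance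

/-- The number of coordinates for a set of `m` variables. -/
def TT (m : ℕ) : ℕ :=
  if h : Stp k s m then
    TT (m / RR k s) + (s + 1) + TT (m - (s + 1) * (m / RR k s))
  else m
termination_by m
decreasing_by
  · exact h.2.1
  · exact h.2.2

/-- The smallest prime number greater than `x`. -/
def np (x : ℕ) : ℕ := Nat.find (p := fun p => p.Prime ∧ x < p)
  (by obtain ⟨p, h1, h2⟩ := Nat.exists_infinite_primes (x + 1); exact ⟨p, h2, h1⟩)

/-- The moduli. -/
def PP (Λ : ℕ) : ℕ → ℕ
  | 0 => 2
  | h + 1 => np (Λ * PP Λ h)

/-- The trees of choices. -/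
inductive Ch
  | leaf : Ch
  | node : Ch → ℕ → Ch → Ch
deriving DecidableEq

/-- The choices for a set of `m` variables. -/
def choices (Λ : ℕ) (m : ℕ) : Finset Ch :=
  if _h : Stp k s m then
    ((choices Λ (m / RR k s)) ×ˢ (Finset.range (PP Λ (Nat.log (RR k s) m))) ×ˢ
      (choices Λ (m - (s + 1) * (m / RR k s)))).image fun x => Ch.node x.1 x.2.1 x.2.2
  else {Ch.leaf}
termination_by m
decreasing_by
  · exact _h.2.1
  · exact _h.2.2

/-- The exponents of the monomials which are substituted for the variables in `U`. -/
noncomputable def gen (Λ : ℕ) : Ch → Finset (Fin n) → Fin n → (ℕ →₀ ℕ)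
  | Ch.leaf, U, u => if u ∈ U then Finsupp.single (U.filter (· < u)).card 1 else 0
  | Ch.node a κ b, U, u =>
    (∑ c : Fin (s + 1), if u ∈ part k s L ρ U c then
      gen Λ a (part k s L ρ U c) u +
        Finsupp.single (TT k s (U.card / RR k s) + c)
          ((∑ i ∈ Finset.range (TT k s (U.card / RR k s)),
            κ ^ i * gen Λ a (part k s L ρ U c) u i) % PP Λ (Nat.log (RR k s) U.card)) else 0) +
    (gen Λ b (U \ parts k s L ρ U) u).mapDomain (· + (TT k s (U.card / RR k s) + (s + 1)))

end

/-- The parameter of the moduli, for programs of width `w` and length `L` with entries of degree at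
most `d`; `B` is a bound for the total number of variables of all programs which are considered
together. -/
def Lam (s B w d L N : ℕ) : ℕ := (s + 2) * B * ((w * w) ^ N) ^ 2 + N * (d * L)

section
variable (k s : ℕ) {n : ℕ} (F w d L : ℕ) (ρ : ℕ → Fin n)

/-- The number of reads of the variable `u`. -/
def reads (u : Fin n) : ℕ := ((Finset.range L).filter fun p => ρ p = u).card

/-- The variables which are read at least once and at most `k` times. -/
def light : Finset (Fin n) := Finset.univ.filter fun u => 1 ≤ reads L ρ u ∧ reads L ρ u ≤ k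

/-- The variables which are read more than `k` times. -/
def heavy : Finset (Fin n) := Finset.univ.filter fun u => k < reads L ρ u

/-- The parameter of the moduli for products of `F` programs in `n` variables. -/
def Lam0 (n : ℕ) : ℕ := Lam s (F * n) w d L (BB k * Nat.log (RR k s) n + 1)

/-- The number of coordinates used for the light variables. -/
def T1 : ℕ := TT k s (light k L ρ).card

/-- The exponents: the monomial for the variable `u`. Every heavy variable has a coordinate of its
own. -/
noncomputable def expo (ch : Ch) (u : Fin n) : ℕ →₀ ℕ :=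
  gen k s L ρ (Lam0 k s F w d L n) ch (light k L ρ) u +
    (if u ∈ heavy k L ρ then
      Finsupp.single (((heavy k L ρ).filter (· < u)).card + T1 k s L ρ) 1 else 0)

/-- A bound for the exponents. -/
def XX (n : ℕ) : ℕ := PP (Lam0 k s F w d L n) (Nat.log (RR k s) n)

/-- The number of coordinates. -/
def T2 : ℕ := T1 k s L ρ + (heavy k L ρ).card

/-- The number of values for the coordinate `i`. -/
def gr (i : ℕ) : ℕ :=
  if i < T1 k s L ρ then F * (d * L) * XX k s F w d L n + 1 else F * (d * L) + 1

/-- The explicit points: `x_u = ∏_i t_i ^ (expo u i)` for all choices and all `t_i < gr i`. -/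
noncomputable def points : Finset (Fin n → ℤ) :=
  (choices k s (Lam0 k s F w d L n) (light k L ρ).card).biUnion fun ch =>
    (Fintype.piFinset fun i : Fin (T2 k s L ρ) => Finset.range (gr k s F w d L ρ i)).image
      fun t u => ∏ i : Fin (T2 k s L ρ), (t i : ℤ) ^ (expo k s F w d L ρ ch u i)

end

/-- The base of the bounds. -/
def YY (n F w d L : ℕ) : ℕ := (n + 2) * (F + 2) * (w + 2) * (d + 2) * (L + 2)

/-- The constant of the bounds. -/
def CC : ℕ := 80

open MvPolynomial in
/-- The polynomials computed by oblivious algebraic branching programs of width `w` which read the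
variables `ρ 0, …, ρ (L - 1)` in this order: the linear combinations of the entries of a product
`M_0(x_(ρ 0)) ⋯ M_(L-1)(x_(ρ (L-1)))` of `w × w` matrices of univariate polynomials of degree at
most `d`. -/
def Program (K : Type) [Field K] {n : ℕ} (w d L : ℕ) (ρ : ℕ → Fin n)
    (f : MvPolynomial (Fin n) K) : Prop :=
  ∃ (M : ℕ → Matrix (Fin w) (Fin w) (Polynomial K)) (c : Matrix (Fin w) (Fin w) K),
    (∀ p a b, (M p a b).natDegree ≤ d) ∧
    f = ∑ a, ∑ b, C (c a b) *
      ((List.range L).map fun p => (M p).map fun q => Polynomial.aeval (X (ρ p)) q).prod a b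

/-- The divisors of products of at most `F` nonzero polynomials computed by such programs. -/
def Divides (K : Type) [Field K] {n : ℕ} (F w d L : ℕ) (ρ : ℕ → Fin n)
    (f : MvPolynomial (Fin n) K) : Prop :=
  ∃ g : Fin F → MvPolynomial (Fin n) K, (∀ i, Program K w d L ρ (g i) ∧ g i ≠ 0) ∧ f ∣ ∏ i, g i

end Pool.Agent.W945.Rl
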