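import Pool.Agent.W945.Rl.Main

/-! # The main induction -/

set_option linter.unusedSectionVars false

namespace Pool.Agent.W945.Rl
open Pool.Agent.W945.Rk
open MvPolynomial

noncomputable section

theorem Good.one {ι τ K : Type} [Field K] (e : ι → (τ →₀ ℕ)) :
    Good e (1 : Submodule K (MvPolynomial ι K)) := by
  intro f hf h0
  rw [Submodule.mem_one] at hf
  obtain ⟨c, rfl⟩ := hf
  rw [AlgHom.commutes] at h0
  rw [MvPolynomial.algebraMap_eq] at h0 ⊢
  have : c = 0 := by
    have h1 := congrArg (coeff 0) h0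
    simpa using h1
  rw [this, map_zero]

/-- Merging the classes. -/
theorem merge_classes {n : ℕ} {K : Type} [Field K] {r : ℕ} {P : Fin r → Finset (Fin n)}
    (hP : ∀ c c' u, u ∈ P c → u ∈ P c' → c = c')
    {S : Fin r → Submodule K (MvPolynomial (Fin n) K)} (hS : ∀ c, S c ≤ Sup K (P c : Set (Fin n)))
    {G : Fin r → Fin n → (ℕ →₀ ℕ)} (hG : ∀ c, Good (G c) (S c)) {T : ℕ}
    (hT : ∀ c u i, T ≤ i → G c u i = 0) {β : Fin r → Fin n → ℕ} {p : ℕ}
    {lam : (ℕ →₀ ℕ) →+ ZMod p} (hβ : ∀ c u, u ∈ P c → (β c u : ZMod p) = lam (G c u))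
    {B : Fin r → Set (ℕ →₀ ℕ)} (hB : ∀ c, ∀ g ∈ S c, ∀ b, IsLd (Th K (G c) g) b → b ∈ B c)
    (hsep : ∀ c, ∀ a ∈ B c, ∀ b ∈ B c, lam a = lam b → a = b) :
    Good (fun u => ∑ c, if u ∈ P c then G c u + Finsupp.single (T + c) (β c u) else 0)
      (∏ c, S c) := by
  classical
  set eC : Finset (Fin r) → Fin n → (ℕ →₀ ℕ) := fun C u =>
    ∑ c, if u ∈ P c then G c u + (if c ∈ C then Finsupp.single (T + c) (β c u) else 0) else 0
    with heC
  have hev : ∀ C c u, u ∈ P c → eC C u =
      G c u + (if c ∈ C then Finsupp.single (T + c) (β c u) else 0) := by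
    intro C c u hu
    simp only [heC]
    rw [Finset.sum_eq_single c]
    · rw [if_pos hu]
    · intro c' _ hc'
      rw [if_neg]
      intro h
      exact hc' (hP c' c u h hu)
    · intro h; exact absurd (Finset.mem_univ _) h
  have key : ∀ C : Finset (Fin r), Good (eC C) (∏ c ∈ C, S c) := by
    intro C
    induction C using Finset.induction_on with
    | empty => rw [Finset.prod_empty]; exact Good.one _
    | insert c C hc ih =>
      rw [Finset.prod_insert hc, mul_comm]
      have hSC : ∏ c' ∈ C, S c' ≤ Sup K (⋃ c' ∈ C, (P c' : Set (Fin n))) := by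
        apply prod_le_Sup
        intro c' hc'
        exact (hS c').trans (Sup_mono fun x hx => Set.mem_biUnion hc' hx)
      have hgc : Good (eC C) (S c) := by
        refine Good.congr (fun u hu => ?_) (hS c) (hG c)
        rw [hev C c u hu, if_neg hc, add_zero]
      refine Good.merge (lam := lam) (U₁ := ⋃ c' ∈ C, (P c' : Set (Fin n))) (U₂ := P c) ?_ hSC (hS c)
        (e := eC C) (z := T + c) ih hgc ?_ ?_ ?_ (B := B c) ?_ (hsep c)
      · rw [Set.disjoint_left]
        intro u hu hu'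
        simp only [Set.mem_iUnion] at hu
        obtain ⟨c', hc', hu⟩ := hu
        have := hP c' c u hu hu'
        rw [this] at hc'
        exact hc hc'
      · intro u hu
        simp only [Set.mem_iUnion] at hu
        obtain ⟨c', hc', hu⟩ := hu
        rw [hev _ c' u hu, hev _ c' u hu, if_pos hc', if_pos (Finset.mem_insert_of_mem hc')]
      · intro u hu
        refine ⟨β c u, ?_, ?_⟩
        · rw [hev _ c u hu, hev _ c u hu, if_pos (Finset.mem_insert_self _ _), if_neg hc, add_zero]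
        · rw [hβ c u hu, hev _ c u hu, if_neg hc, add_zero]
      · intro u hu
        rcases hu with hu | hu
        · simp only [Set.mem_iUnion] at hu
          obtain ⟨c', hc', hu⟩ := hu
          rw [hev _ c' u hu, if_pos hc', Finsupp.add_apply, hT _ _ _ (by omega),
            Finsupp.single_apply, if_neg, add_zero]
          intro h
          have h2 : c' = c := by
            apply Fin.ext; omega
          rw [h2] at hc'
          exact hc hc'
        · rw [hev _ c u hu, if_neg hc, add_zero, hT _ _ _ (by omega)]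
      · intro g hg b hb
        apply hB c g hg b
        rwa [Th_congr (V := (P c : Set (Fin n))) (e := G c) (e' := eC C) (fun u hu => by
          rw [hev C c u hu, if_neg hc, add_zero]) (hS c hg)]
  have h2 := key Finset.univ
  simpa [heC] using h2

section main
variable {k s n L w d N0 B0 : ℕ} [hs1 : Fact (s = 1)] {ρ : ℕ → Fin n} [NeZero w]

/-- The statement which is proved by induction on the number `m` of variables. -/
def Stmt (k s n L w d N0 B0 : ℕ) (ρ : ℕ → Fin n) (m : ℕ) : Prop :=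
  ∀ (J : Type) [Fintype J] (K : J → Type) [∀ j, Field (K j)]
  (Mt : ∀ j, ℕ → Matrix (Fin w) (Fin w) (MvPolynomial (Fin n) (K j)))
  (U : J → Finset (Fin n)) (g : J → ℕ → ℕ) (A : J → Set ℕ) (N : ℕ),
  (∀ j, (U j).card = m) → (∀ j, ∀ u ∈ U j, ∃ p < L, ρ p = u) →
  (∀ j, ∀ u ∈ U j, ((Finset.range L).filter fun p => ρ p = u).card ≤ k) →
  (∀ j, Monotone (g j)) → (∀ j p, g j p ≤ N) →
  (∀ j, ∀ p < L, p ∈ A j → ∀ a b, Mt j p a b ∈ Sup (K j) ({ρ p} ∩ (U j : Set (Fin n)))) →
  (∀ j, ∀ p < L, ∀ a b, (Mt j p a b).totalDegree ≤ d) →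
  Fintype.card J * m ≤ B0 → N + BB k * Nat.log (RR k s) m + 1 ≤ N0 →
  ∃ ch ∈ choices k s (Lam s B0 w d L N0) m, ∀ j,
    Good (gen k s L ρ (Lam s B0 w d L N0) ch (U j)) (Sp L (Mt j) (g j) (A j) N) ∧
    (∀ u i, TT k s m ≤ i → gen k s L ρ (Lam s B0 w d L N0) ch (U j) u i = 0) ∧
    (∀ u i, gen k s L ρ (Lam s B0 w d L N0) ch (U j) u i <
      PP (Lam s B0 w d L N0) (Nat.log (RR k s) m))

theorem stmt_base {m : ℕ} (hm : m < QQ k s) : Stmt k s n L w d N0 B0 ρ m := by
  intro J _ K _ Mt U g A N hU hread hr hg hgN hsup hdeg hJ hN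
  have hSt : ¬ Stp k s m := fun h => absurd h.1 (by omega)
  refine ⟨Ch.leaf, ?_, fun j => ⟨?_, ?_, ?_⟩⟩
  · rw [choices, dif_neg hSt]; exact Finset.mem_singleton_self _
  · have hS : Sp L (Mt j) (g j) (A j) N ≤ Sup (K j) (U j : Set (Fin n)) :=
      Sp_le_Sup fun p hp hpA a b => Sup_mono Set.inter_subset_right (hsup j p hp hpA a b)
    refine Good.of_injOn (V := (U j : Set (Fin n)))
      (f := fun u => ((U j).filter (· < u)).card) ?_ ?_ hS
    · have hlt : ∀ u ∈ U j, ∀ v, u < v →
          ((U j).filter (· < u)).card < ((U j).filter (· < v)).card := by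
        intro u hu v huv
        apply Finset.card_lt_card
        rw [Finset.ssubset_iff_of_subset]
        · exact ⟨u, by simp [hu, huv], by simp⟩
        · intro x hx
          simp only [Finset.mem_filter] at hx ⊢
          exact ⟨hx.1, hx.2.trans huv⟩
      intro u hu v hv huv
      rcases lt_trichotomy u v with h | h | h
      · have := hlt u hu v h; simp only at huv; omega
      · exact h
      · have := hlt v hv u h; simp only at huv; omega
    · intro u hu
      rw [gen, if_pos (Finset.mem_coe.1 hu)]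
  · intro u i hi
    rw [TT, dif_neg hSt] at hi
    rw [gen]
    split_ifs with hu
    · rw [Finsupp.single_apply, if_neg]
      have : ((U j).filter (· < u)).card < (U j).card := by
        apply Finset.card_lt_card
        rw [Finset.ssubset_iff_of_subset (Finset.filter_subset _ _)]
        exact ⟨u, hu, by simp⟩
      rw [hU j] at this
      omega
    · rfl
  · intro u i
    have h2 := PP_pos (Λ := Lam s B0 w d L N0) (Nat.log (RR k s) m)
    rw [gen]
    split_ifs with hu
    · rw [Finsupp.single_apply]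
      split_ifs <;> omega
    · rw [Finsupp.zero_apply]; omega

/-- the exponents for the variables in the classes -/
def gen1 (k s L : ℕ) (ρ : ℕ → Fin n) (Λ : ℕ) (a : Ch) (κ : ℕ) (U : Finset (Fin n)) (u : Fin n) :
    ℕ →₀ ℕ :=
  ∑ c : Fin (s + 1), if u ∈ part k s L ρ U c then
      gen k s L ρ Λ a (part k s L ρ U c) u +
        Finsupp.single (TT k s (U.card / RR k s) + c)
          ((∑ i ∈ Finset.range (TT k s (U.card / RR k s)),
            κ ^ i * gen k s L ρ Λ a (part k s L ρ U c) u i) % PP Λ (Nat.log (RR k s) U.card)) else 0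

theorem gen_node (Λ : ℕ) (a : Ch) (κ : ℕ) (b : Ch) (U : Finset (Fin n)) (u : Fin n) :
    gen k s L ρ Λ (Ch.node a κ b) U u = gen1 k s L ρ Λ a κ U u +
      (gen k s L ρ Λ b (U \ parts k s L ρ U) u).mapDomain
        (· + (TT k s (U.card / RR k s) + (s + 1))) := rfl

theorem gen1_of_mem {Λ : ℕ} {a : Ch} {κ : ℕ} {U : Finset (Fin n)}
    (hread : ∀ u ∈ U, ∃ p < L, ρ p = u) {c : Fin (s + 1)} {u : Fin n}
    (hu : u ∈ part k s L ρ U c) : gen1 k s L ρ Λ a κ U u =
      gen k s L ρ Λ a (part k s L ρ U c) u +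
        Finsupp.single (TT k s (U.card / RR k s) + c)
          ((∑ i ∈ Finset.range (TT k s (U.card / RR k s)),
            κ ^ i * gen k s L ρ Λ a (part k s L ρ U c) u i) % PP Λ (Nat.log (RR k s) U.card)) := by
  unfold gen1
  rw [Finset.sum_eq_single c]
  · rw [if_pos hu]
  · intro c' _ hc'
    rw [if_neg]
    intro h
    exact hc' (part_disjoint hread h hu)
  · intro h; exact absurd (Finset.mem_univ _) h

theorem gen1_of_notMem {Λ : ℕ} {a : Ch} {κ : ℕ} {U : Finset (Fin n)} {u : Fin n}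
    (hu : u ∉ parts k s L ρ U) : gen1 k s L ρ Λ a κ U u = 0 := by
  unfold gen1
  refine Finset.sum_eq_zero fun c _ => ?_
  rw [if_neg]
  intro h
  exact hu (Finset.mem_biUnion.2 ⟨c, Finset.mem_univ _, h⟩)

theorem mapDomain_add_apply (a : ℕ →₀ ℕ) (T i : ℕ) :
    a.mapDomain (· + T) i = if T ≤ i then a (i - T) else 0 := by
  split_ifs with h
  · obtain ⟨j, rfl⟩ := Nat.exists_eq_add_of_le' h
    have : (a.mapDomain (· + T)) ((· + T) j) = a j :=
      Finsupp.mapDomain_apply (add_left_injective T) a j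
    simpa using this
  · apply Finsupp.mapDomain_of_notMem_range
    rintro ⟨j, hj⟩
    simp only at hj
    omega

theorem stmt_step (hk : 1 ≤ k) {m : ℕ} (hm : QQ k s ≤ m)
    (ih : ∀ m' < m, Stmt k s n L w d N0 B0 ρ m') : Stmt k s n L w d N0 B0 ρ m := by
  intro J _ K _ Mt U g A N hU hread hr hg hgN hsup hdeg hJ hN
  set Λ := Lam s B0 w d L N0 with hΛdef
  have hQ := QQ_pos (s := s) hk
  have hRQ := RR_le_QQ (s := s) hk
  have hsR := s_le_RR (s := s) hk
  have hSt : Stp k s m := Stp_of hk hm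
  by_cases hJe : IsEmpty J
  · -- no instance at all
    have hne : ∀ m, (choices k s Λ m).Nonempty := by
      intro m
      induction m using Nat.strong_induction_on with
      | _ m ih2 =>
        rw [choices]
        split_ifs with h
        · apply Finset.Nonempty.image
          rw [Finset.nonempty_product, Finset.nonempty_product]
          refine ⟨ih2 _ h.2.1, ⟨0, ?_⟩, ih2 _ h.2.2⟩
          rw [Finset.mem_range]
          have := PP_pos (Λ := Λ) (Nat.log (RR k s) m)
          omega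
        · exact Finset.singleton_nonempty _
    obtain ⟨ch, hch⟩ := hne m
    exact ⟨ch, hch, fun j => (hJe.false j).elim⟩
  rw [not_isEmpty_iff] at hJe
  obtain ⟨j0⟩ := hJe
  have hn : 0 < B0 := by
    have := Fintype.card_pos_iff.2 ⟨j0⟩
    by_contra h0
    have : Fintype.card J * m = 0 := by omega
    rcases Nat.mul_eq_zero.1 this with h | h <;> omega
  have hw : 0 < w := Nat.pos_of_ne_zero (NeZero.ne w)
  have hW1 : 1 ≤ (w * w) ^ N0 := Nat.one_le_pow _ _ (by positivity)
  have hΛ0 : (s + 2) * B0 * ((w * w) ^ N0) ^ 2 ≤ Λ := by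
    rw [hΛdef, Lam]; omega
  have hΛ2 : N0 * (d * L) ≤ Λ := by rw [hΛdef, Lam]; omega
  have hΛ1 : 1 ≤ Λ := by
    refine le_trans (Nat.one_le_iff_ne_zero.2 ?_) hΛ0
    positivity
  set m' := m / RR k s with hm'
  have hm'1 : 1 ≤ m' := (Nat.one_le_div_iff RR_pos).2 (by omega)
  have hlog1 : 1 ≤ Nat.log (RR k s) m := Nat.log_pos (by omega) (by omega)
  have hlog2 : Nat.log (RR k s) m' = Nat.log (RR k s) m - 1 := Nat.log_div_base _ _
  obtain ⟨l, hl⟩ : ∃ l, Nat.log (RR k s) m = l + 1 := ⟨_, (Nat.sub_add_cancel hlog1).symm⟩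
  have hl' : Nat.log (RR k s) m' = l := by omega
  have hsm : (s + 1) * m' ≤ m := by
    have h1 : m' * RR k s ≤ m := Nat.div_mul_le_self _ _
    have h2 : m' * (2 * (s + 1)) ≤ m' * RR k s := Nat.mul_le_mul_left _ hsR
    nlinarith
  have hQU : ∀ j, QQ k s ≤ (U j).card := fun j => by rw [hU j]; exact hm
  have hNl : N + BB k * (l + 1) + 1 ≤ N0 := by rw [← hl]; exact hN
  rw [Nat.mul_succ] at hNl
  have hpart : ∀ j c, (part k s L ρ (U j) c).card = m' := fun j c => by
    rw [part_card hk (hQU j) (hr j), hU]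
  -- the first phase: the matrices over the larger field
  have hsup1 : ∀ x : J × Fin (s + 1), ∀ p < L, p ∈ (A x.1 ∩ {p | colr k s L ρ (U x.1)
      (Fin.ofNat (BB k + 1) (lab k L ρ (U x.1) p)) = x.2} : Set ℕ) → ∀ a b,
      ((Mt x.1 p).map (bc1 (parts k s L ρ (U x.1) : Set (Fin n)))) a b ∈
        Sup (F1 (Fin n) (K x.1)) ({ρ p} ∩ (part k s L ρ (U x.1) x.2 : Set (Fin n))) := by
    rintro ⟨j, c⟩ p hp ⟨hpA, hpc⟩ a b
    have h1 := bc_Sup (V := (parts k s L ρ (U j) : Set (Fin n)))
      ((algebraMap (MvPolynomial (Fin n) (K j)) (F1 (Fin n) (K j))).comp C)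
      (fun u => algebraMap (MvPolynomial (Fin n) (K j)) (F1 (Fin n) (K j)) (X u))
      (hsup j p hp hpA a b)
    refine Sup_mono ?_ h1
    rintro u ⟨⟨hu1, hu2⟩, hu3⟩
    refine ⟨hu1, ?_⟩
    have hu4 : u ∈ parts k s L ρ (U j) := hu3
    rw [parts, Finset.mem_biUnion] at hu4
    obtain ⟨c', _, hc'⟩ := hu4
    have h2 := part_reads hc' hp hu1.symm
    have h3 : c' = c := by rw [← h2]; exact hpc
    rw [← h3]; exact hc'
  have hdeg1 : ∀ x : J × Fin (s + 1), ∀ p < L, ∀ a b,
      (((Mt x.1 p).map (bc1 (parts k s L ρ (U x.1) : Set (Fin n)))) a b).totalDegree ≤ d :=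
    fun x p hp a b => (bc_deg _ _ _).trans (hdeg x.1 p hp a b)
  obtain ⟨ch1, hch1, H1⟩ := ih m' hSt.2.1 (J × Fin (s + 1)) (fun x => F1 (Fin n) (K x.1))
    (fun x p => (Mt x.1 p).map (bc1 (parts k s L ρ (U x.1) : Set (Fin n))))
    (fun x => part k s L ρ (U x.1) x.2) (fun x p => g x.1 p + lab k L ρ (U x.1) p)
    (fun x => A x.1 ∩ {p | colr k s L ρ (U x.1)
      (Fin.ofNat (BB k + 1) (lab k L ρ (U x.1) p)) = x.2}) (N + BB k)
    (fun x => hpart x.1 x.2)
    (fun x u hu => hread x.1 u (part_subset x.2 hu))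
    (fun x u hu => hr x.1 u (part_subset x.2 hu))
    (fun x p q h => Nat.add_le_add (hg x.1 h) (lab_mono h))
    (fun x p => Nat.add_le_add (hgN x.1 p) (lab_le hk (hQU x.1) (hr x.1) p))
    hsup1 hdeg1
    (by
      rw [Fintype.card_prod, Fintype.card_fin, mul_assoc]
      exact (Nat.mul_le_mul_left _ hsm).trans hJ)
    (by rw [hl']; omega)
  -- the tie breaking
  have hSm : ∀ x : J × Fin (s + 1), Small ((w * w) ^ N0)
      (Sp L (fun p => (Mt x.1 p).map (bc1 (parts k s L ρ (U x.1) : Set (Fin n))))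
        (fun p => g x.1 p + lab k L ρ (U x.1) p)
        (A x.1 ∩ {p | colr k s L ρ (U x.1)
          (Fin.ofNat (BB k + 1) (lab k L ρ (U x.1) p)) = x.2}) (N + BB k)) := fun x =>
    (Small.Sp _ _ _).mono (Nat.pow_le_pow_right (by positivity) (by omega)) le_rfl
  choose B hBc hBg hBl using fun x : J × Fin (s + 1) =>
    exists_leads (hSm x) (gen k s L ρ Λ ch1 (part k s L ρ (U x.1) x.2))
  set Q : Finset ((ℕ →₀ ℕ) × (ℕ →₀ ℕ)) := Finset.univ.biUnion fun x : J × Fin (s + 1) =>
    (B x ×ˢ B x).filter fun y => y.1 ≠ y.2 with hQdef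
  have hQc : Q.card ≤ Fintype.card J * (s + 1) * ((w * w) ^ N0) ^ 2 := by
    refine Finset.card_biUnion_le.trans ?_
    refine (Finset.sum_le_card_nsmul _ _ (((w * w) ^ N0) ^ 2) fun x _ => ?_).trans ?_
    · refine (Finset.card_filter_le _ _).trans ?_
      rw [Finset.card_product, sq]
      exact Nat.mul_le_mul (hBc x) (hBc x)
    · rw [Finset.card_univ, Fintype.card_prod, Fintype.card_fin, smul_eq_mul]
  have hpr : (PP Λ (Nat.log (RR k s) m)).Prime := by rw [hl]; exact np_prime _
  have hpl : Λ * PP Λ l < PP Λ (Nat.log (RR k s) m) := by rw [hl]; exact lt_np _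
  have hPPl := PP_pos (Λ := Λ) l
  have hT1 := TT_le (s := s) hk m' hm'1
  have hQT : Q.card * TT k s m' < PP Λ (Nat.log (RR k s) m) := by
    refine lt_of_le_of_lt ?_ hpl
    have h1 : Q.card * TT k s m' ≤
        (Fintype.card J * (s + 1) * ((w * w) ^ N0) ^ 2) * ((s + 2) * m') :=
      Nat.mul_le_mul hQc (by omega)
    have h2 : (Fintype.card J * (s + 1) * ((w * w) ^ N0) ^ 2) * ((s + 2) * m') =
        (s + 2) * (Fintype.card J * ((s + 1) * m')) * ((w * w) ^ N0) ^ 2 := by ring
    have h3 : Fintype.card J * ((s + 1) * m') ≤ B0 := (Nat.mul_le_mul_left _ hsm).trans hJ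
    have h4 : (s + 2) * (Fintype.card J * ((s + 1) * m')) * ((w * w) ^ N0) ^ 2 ≤
        (s + 2) * B0 * ((w * w) ^ N0) ^ 2 :=
      Nat.mul_le_mul_right _ (Nat.mul_le_mul_left _ h3)
    have h6 : Λ * 1 ≤ Λ * PP Λ l := Nat.mul_le_mul_left _ (by omega)
    omega
  have hdegS : ∀ x : J × Fin (s + 1), ∀ f ∈ (Sp L (fun p => (Mt x.1 p).map
        (bc1 (parts k s L ρ (U x.1) : Set (Fin n))))
        (fun p => g x.1 p + lab k L ρ (U x.1) p)
        (A x.1 ∩ {p | colr k s L ρ (U x.1)
          (Fin.ofNat (BB k + 1) (lab k L ρ (U x.1) p)) = x.2}) (N + BB k)),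
      f.totalDegree ≤ N0 * (d * L) := by
    intro x f hf
    exact (Sp_deg (hdeg1 x) f hf).trans (Nat.mul_le_mul_right _ (by omega))
  have hBT : ∀ x, ∀ b ∈ B x, ∀ i, TT k s m' ≤ i → b i = 0 := by
    intro x b hb i hi
    obtain ⟨f, hf, hfb⟩ := hBg x b hb
    have h1 := lead_bound (X := 0) hfb.1 (hdegS x f hf) i fun u => ((H1 x).2.1 u i hi).le
    omega
  have hBX : ∀ x, ∀ b ∈ B x, ∀ i, b i < PP Λ (Nat.log (RR k s) m) := by
    intro x b hb i
    obtain ⟨f, hf, hfb⟩ := hBg x b hb
    have h1 := lead_bound (X := PP Λ l) hfb.1 (hdegS x f hf) i fun u => by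
      have := (H1 x).2.2 u i
      rw [hl'] at this
      exact this.le
    exact lt_of_le_of_lt (h1.trans (Nat.mul_le_mul_right _ hΛ2)) hpl
  obtain ⟨κ, hκ, hκs⟩ := exists_sep (T := TT k s m') hpr Q hQT
    (by
      intro y hy
      rw [hQdef, Finset.mem_biUnion] at hy
      obtain ⟨x, _, hx⟩ := hy
      exact (Finset.mem_filter.1 hx).2)
    (by
      intro y hy i hi
      rw [hQdef, Finset.mem_biUnion] at hy
      obtain ⟨x, _, hx⟩ := hy
      have h2 := Finset.mem_product.1 (Finset.mem_filter.1 hx).1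
      exact ⟨hBT x _ h2.1 i hi, hBT x _ h2.2 i hi⟩)
    (by
      intro y hy i
      rw [hQdef, Finset.mem_biUnion] at hy
      obtain ⟨x, _, hx⟩ := hy
      have h2 := Finset.mem_product.1 (Finset.mem_filter.1 hx).1
      exact ⟨hBX x _ h2.1 i, hBX x _ h2.2 i⟩)
  have G1 : ∀ j, Good (gen1 k s L ρ Λ ch1 κ (U j)) (∏ c : Fin (s + 1),
      Sp L (fun p => (Mt j p).map (bc1 (parts k s L ρ (U j) : Set (Fin n))))
        (fun p => g j p + lab k L ρ (U j) p)
        (A j ∩ {p | colr k s L ρ (U j)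
          (Fin.ofNat (BB k + 1) (lab k L ρ (U j) p)) = c}) (N + BB k)) := by
    intro j
    have h1 := merge_classes (P := part k s L ρ (U j))
      (fun c c' u hu hu' => part_disjoint (hread j) hu hu')
      (S := fun c => Sp L (fun p => (Mt j p).map (bc1 (parts k s L ρ (U j) : Set (Fin n))))
        (fun p => g j p + lab k L ρ (U j) p)
        (A j ∩ {p | colr k s L ρ (U j)
          (Fin.ofNat (BB k + 1) (lab k L ρ (U j) p)) = c}) (N + BB k))
      (fun c => Sp_le_Sup fun p hp hpA a b =>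
        Sup_mono Set.inter_subset_right (hsup1 (j, c) p hp hpA a b))
      (G := fun c => gen k s L ρ Λ ch1 (part k s L ρ (U j) c))
      (fun c => (H1 (j, c)).1) (T := TT k s m') (fun c u i hi => (H1 (j, c)).2.1 u i hi)
      (β := fun c u => (∑ i ∈ Finset.range (TT k s m'),
            κ ^ i * gen k s L ρ Λ ch1 (part k s L ρ (U j) c) u i) %
              PP Λ (Nat.log (RR k s) m)) (p := PP Λ (Nat.log (RR k s) m))
      (lam := lamF (PP Λ (Nat.log (RR k s) m)) (TT k s m') κ)
      (fun c u _ => by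
        rw [ZMod.natCast_mod]
        simp [lamF])
      (B := fun c => (B (j, c) : Set (ℕ →₀ ℕ))) (fun c f hf b hb => hBl (j, c) f hf b hb)
      (fun c a ha b hb hab => by
        by_contra hne
        refine hκs (a, b) ?_ hab
        rw [hQdef, Finset.mem_biUnion]
        exact ⟨(j, c), Finset.mem_univ _, Finset.mem_filter.2
          ⟨Finset.mem_product.2 ⟨ha, hb⟩, hne⟩⟩)
    have h2 : gen1 k s L ρ Λ ch1 κ (U j) = fun u => ∑ c : Fin (s + 1),
        if u ∈ part k s L ρ (U j) c then gen k s L ρ Λ ch1 (part k s L ρ (U j) c) u +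
          Finsupp.single (TT k s m' + c) ((∑ i ∈ Finset.range (TT k s m'),
            κ ^ i * gen k s L ρ Λ ch1 (part k s L ρ (U j) c) u i) %
              PP Λ (Nat.log (RR k s) m)) else 0 := by
      funext u
      rw [gen1, hU j]
    rw [h2]
    exact h1
  -- the second phase
  obtain ⟨ch2, hch2, H2⟩ := ih (m - (s + 1) * m') hSt.2.2 J (fun j => F1 ℕ (K j))
    (fun j p => (Mt j p).map (bc2 (parts k s L ρ (U j) : Set (Fin n))
      (gen1 k s L ρ Λ ch1 κ (U j))))
    (fun j => U j \ parts k s L ρ (U j)) g A N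
    (fun j => by
      show (U j \ parts k s L ρ (U j)).card = _
      rw [Finset.card_sdiff_of_subset parts_subset, parts_card hk (hQU j) (hr j) (hread j), hU j])
    (fun j u hu => hread j u (Finset.mem_sdiff.1 hu).1)
    (fun j u hu => hr j u (Finset.mem_sdiff.1 hu).1)
    hg hgN
    (by
      intro j p hp hpA a b
      have h1 := bc_Sup (V := (parts k s L ρ (U j) : Set (Fin n))ᶜ)
        ((algebraMap (MvPolynomial ℕ (K j)) (F1 ℕ (K j))).comp C)
        (fun u => algebraMap (MvPolynomial ℕ (K j)) (F1 ℕ (K j))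
          (monomial (gen1 k s L ρ Λ ch1 κ (U j) u) 1))
        (hsup j p hp hpA a b)
      refine Sup_mono ?_ h1
      rintro u ⟨⟨hu1, hu2⟩, hu3⟩
      refine ⟨hu1, ?_⟩
      rw [Finset.coe_sdiff]
      exact ⟨hu2, hu3⟩)
    (fun j p hp a b => (bc_deg _ _ _).trans (hdeg j p hp a b))
    ((Nat.mul_le_mul_left _ (Nat.sub_le _ _)).trans hJ)
    (by
      have := Nat.log_mono_right (b := RR k s) (Nat.sub_le m ((s + 1) * m'))
      have := Nat.mul_le_mul_left (BB k) this
      omega)
  have hPm : PP Λ l ≤ PP Λ (Nat.log (RR k s) m) := by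
    rw [hl]; exact PP_mono hΛ1 (Nat.le_succ l)
  have hTTm : TT k s m = TT k s m' + (s + 1) + TT k s (m - (s + 1) * m') := by
    rw [TT, dif_pos hSt]
  have hgen1 : ∀ j u i, TT k s m' + (s + 1) ≤ i → gen1 k s L ρ Λ ch1 κ (U j) u i = 0 := by
    intro j u i hi
    by_cases hu : u ∈ parts k s L ρ (U j)
    · rw [parts, Finset.mem_biUnion] at hu
      obtain ⟨c, _, hc⟩ := hu
      have hc2 := c.2
      rw [gen1_of_mem (hread j) hc, hU j, ← hm', Finsupp.add_apply,
        (H1 (j, c)).2.1 u i (by omega), Finsupp.single_apply, if_neg (by omega), add_zero]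
    · rw [gen1_of_notMem hu, Finsupp.zero_apply]
  refine ⟨Ch.node ch1 κ ch2, ?_, fun j => ⟨?_, ?_, ?_⟩⟩
  · rw [choices, dif_pos hSt, Finset.mem_image]
    exact ⟨(ch1, κ, ch2), Finset.mem_product.2 ⟨hch1, Finset.mem_product.2
      ⟨Finset.mem_range.2 hκ, hch2⟩⟩, rfl⟩
  · refine Good.rounds (V := (parts k s L ρ (U j) : Set (Fin n)))
      (e₁ := gen1 k s L ρ Λ ch1 κ (U j)) (e₂ := gen k s L ρ Λ ch2 (U j \ parts k s L ρ (U j)))
      (T := TT k s m' + (s + 1)) (hgen1 j) ?_ ?_ ?_ ?_ ?_ (G1 j) (H2 j).1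
    · intro u hu
      exact gen1_of_notMem hu
    · intro u hu
      exact gen_zero _ _ _ fun h => (Finset.mem_sdiff.1 h).2 hu
    · intro u
      rw [gen_node, hU j]
    · intro f hf
      exact Sp_regroup (hg j) lab_mono (hgN j) (lab_le hk (hQU j) (hr j))
        (fun x => colr k s L ρ (U j) (Fin.ofNat (BB k + 1) x)) (A j) (Sp_bc _ _ _ hf)
    · intro f hf
      exact Sp_bc _ _ _ hf
  · intro u i hi
    rw [hTTm] at hi
    rw [gen_node, hU j, ← hm', Finsupp.add_apply, mapDomain_add_apply, hgen1 j u i (by omega),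
      if_pos (by omega), (H2 j).2.1 u _ (by omega), add_zero]
  · intro u i
    rw [gen_node, hU j, ← hm', Finsupp.add_apply, mapDomain_add_apply]
    split_ifs with hi
    · rw [hgen1 j u i hi, zero_add]
      exact lt_of_lt_of_le ((H2 j).2.2 u _)
        (PP_mono hΛ1 (Nat.log_mono_right (Nat.sub_le _ _)))
    · rw [add_zero]
      by_cases hu : u ∈ parts k s L ρ (U j)
      · rw [parts, Finset.mem_biUnion] at hu
        obtain ⟨c, _, hc⟩ := hu
        rw [gen1_of_mem (hread j) hc, hU j, ← hm', Finsupp.add_apply, Finsupp.single_apply]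
        split_ifs with hci
        · rw [(H1 (j, c)).2.1 u i (by omega), zero_add]
          exact Nat.mod_lt _ hpr.pos
        · rw [add_zero]
          have := (H1 (j, c)).2.2 u i
          rw [hl'] at this
          exact lt_of_lt_of_le this hPm
      · rw [gen1_of_notMem hu, Finsupp.zero_apply]
        exact hpr.pos

/-- **The main induction.** -/
theorem stmt (hk : 1 ≤ k) (m : ℕ) : Stmt k s n L w d N0 B0 ρ m := by
  induction m using Nat.strong_induction_on with
  | _ m ih =>
    rcases Nat.lt_or_ge m (QQ k s) with h | h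
    · exact stmt_base h
    · exact stmt_step hk h ih

end main

end

end Pool.Agent.W945.Rl
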